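import Mathlib

/-!
# Class one representations of `SO(n)` without continuity: a bound off the poles

Let `n ≥ 3` and let `π` be an irreducible unitary representation of the abstract group `SO(n)` (no
continuity is assumed) with a unit vector `ξ` that is fixed by the stabiliser `SO(n - 1)` of `e_1`. We show
that `π` is continuous, or the state `φ(γ) = ⟨ξ, π(γ) ξ⟩` satisfies `p q |φ(γ)| ^ 2 ≤ 1` for all `p + q = n` and
all `γ` with `γ_11 ≠ ± 1`, so `|φ(γ)| ≤ 2 / n` for even `n` and `|φ(γ)| ≤ 2 / √(n ^ 2 - 1)` for odd `n`.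
(The question asks if `φ(γ) = 0` for these `γ` when `π` is not continuous.)

Proof. `φ(γ)` depends only on `γ_11 = t`. For `|t| ≤ u < 1` there are unit vectors `y_1, ..., y_p` with
mutual inner products `u` and unit vectors `x_1, ..., x_q` with mutual inner products `u`, such that
`⟨x_j, y_i⟩ = t` for all `i`, `j`. The inequality of Cauchy and Schwarz for the sums of the vectors of the orbit
of `ξ` at the `x_j` and at the `y_i` gives `p q |φ_t| ^ 2 ≤ (1 + (p - 1) φ_u) (1 + (q - 1) φ_u)`. So, if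
`p q |φ_t| ^ 2 > 1` for one `t ≠ ± 1`, then `Re φ` is bounded below by a positive constant in a
neighbourhood of the identity. The elements of almost minimal norm of the closed convex hulls of the sets
`π(W) ξ`, `W` a small neighbourhood of the identity, then converge to a non-zero vector with
continuous orbit map, and by irreducibility all orbit maps are continuous.
-/

set_option autoImplicit false

open Filter Topology
open scoped InnerProductSpace

namespace Pool.Agent.Results.MP_91ad52_an.BoundOffThePoles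

section general

variable {G : Type*} [Group G] [TopologicalSpace G] [ContinuousMul G]
variable {H : Type*} [NormedAddCommGroup H] [InnerProductSpace ℂ H]

theorem exists_continuous_vector [FirstCountableTopology G] [CompleteSpace H] (π : G →* (H ≃ₗᵢ[ℂ] H)) (ξ : H) (η : ℝ) (hη : 0 < η)
    (W : Set G) (hW : W ∈ 𝓝 (1 : G)) (h : ∀ g ∈ W, η ≤ (⟪ξ, π g ξ⟫_ℂ).re) :
    ∃ c : H, c ≠ 0 ∧ Tendsto (fun g => π g c) (𝓝 1) (𝓝 c) := by
  classical
  obtain ⟨B, hB⟩ := (𝓝 (1 : G)).exists_antitone_basis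
  set C : ℕ → Set H := fun k => closure (convexHull ℝ ((fun g => π g ξ) '' (B k))) with hC
  have hCconv : ∀ k, Convex ℝ (C k) := fun k => (convex_convexHull ℝ _).closure
  have hCclosed : ∀ k, IsClosed (C k) := fun k => isClosed_closure
  have hCanti : Antitone C := fun i j hij =>
    closure_mono (convexHull_mono (Set.image_mono (hB.antitone hij)))
  have hmemB : ∀ k, (1 : G) ∈ B k := fun k => mem_of_mem_nhds (hB.toHasBasis.mem_of_mem trivial)
  have hξC : ∀ k, ξ ∈ C k := fun k =>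
    subset_closure (subset_convexHull ℝ _ ⟨1, hmemB k, by simp⟩)
  set d : ℕ → ℝ := fun k => sInf (norm '' C k) with hd
  have hdbdd : ∀ k, BddBelow (norm '' C k) := fun k =>
    ⟨0, by rintro _ ⟨x, _, rfl⟩; exact norm_nonneg x⟩
  have hd0 : ∀ k, 0 ≤ d k := fun k =>
    Real.sInf_nonneg (by rintro _ ⟨x, _, rfl⟩; exact norm_nonneg x)
  have hdle : ∀ k, ∀ x ∈ C k, d k ≤ ‖x‖ := fun k x hx => csInf_le (hdbdd k) ⟨x, hx, rfl⟩
  have hdmono : Monotone d := fun i j hij =>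
    le_csInf ⟨_, ξ, hξC j, rfl⟩ (by rintro _ ⟨x, hx, rfl⟩; exact hdle i x (hCanti hij hx))
  have hdub : ∀ k, d k ≤ ‖ξ‖ := fun k => hdle k ξ (hξC k)
  obtain ⟨D, hD⟩ : ∃ D, Tendsto d atTop (𝓝 D) :=
    ⟨_, tendsto_atTop_ciSup hdmono ⟨‖ξ‖, by rintro _ ⟨k, rfl⟩; exact hdub k⟩⟩
  have hdD : ∀ k, d k ≤ D := fun k => hdmono.ge_of_tendsto hD k
  have hD0 : 0 ≤ D := (hd0 0).trans (hdD 0)
  have key : ∀ k, ∀ x ∈ C k, ∀ y ∈ C k, ∀ R, ‖x‖ ≤ R → ‖y‖ ≤ R →
      ‖x - y‖ ^ 2 ≤ 4 * (R ^ 2 - d k ^ 2) := by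
    intro k x hx y hy R hxR hyR
    have hmid : (1 / 2 : ℝ) • x + (1 / 2 : ℝ) • y ∈ C k :=
      hCconv k hx hy (by norm_num) (by norm_num) (by norm_num)
    have h1 := hdle k _ hmid
    have h2 : ‖(1 / 2 : ℝ) • x + (1 / 2 : ℝ) • y‖ = (1 / 2) * ‖x + y‖ := by
      rw [← smul_add, norm_smul]; norm_num
    have h3 := parallelogram_law_with_norm ℂ x y
    have h4 : d k ≤ (1 / 2) * ‖x + y‖ := h2 ▸ h1
    have h5 : 4 * d k ^ 2 ≤ ‖x + y‖ ^ 2 := by nlinarith [hd0 k, norm_nonneg (x + y)]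
    have h6 : ‖x‖ ^ 2 ≤ R ^ 2 := by gcongr
    have h7 : ‖y‖ ^ 2 ≤ R ^ 2 := by gcongr
    nlinarith
  have hu : ∀ k : ℕ, ∃ x ∈ C k, ‖x‖ < d k + 1 / ((k : ℝ) + 1) := by
    intro k
    have hpos : (0 : ℝ) < 1 / ((k : ℝ) + 1) := by positivity
    obtain ⟨_, ⟨x, hx, rfl⟩, hlt⟩ := exists_lt_of_csInf_lt (s := norm '' C k) ⟨_, ξ, hξC k, rfl⟩
      (show sInf (norm '' C k) < d k + 1 / ((k : ℝ) + 1) by
        have : sInf (norm '' C k) = d k := rfl
        rw [this]; linarith)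
    exact ⟨x, hx, hlt⟩
  choose u huC hulen using hu
  have hone : Tendsto (fun k : ℕ => 1 / ((k : ℝ) + 1)) atTop (𝓝 0) :=
    tendsto_one_div_add_atTop_nhds_zero_nat
  have hub : ∀ k i, k ≤ i → ‖u i‖ ≤ D + 1 / ((k : ℝ) + 1) := by
    intro k i hki
    have h1 := hulen i
    have h2 := hdD i
    have h3 : 1 / ((i : ℝ) + 1) ≤ 1 / ((k : ℝ) + 1) := by
      apply one_div_le_one_div_of_le (by positivity)
      have : (k : ℝ) ≤ i := by exact_mod_cast hki
      linarith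
    linarith
  have hcauchy : CauchySeq u := by
    refine cauchySeq_of_le_tendsto_0
      (fun k : ℕ => Real.sqrt (4 * ((D + 1 / ((k : ℝ) + 1)) ^ 2 - d k ^ 2))) ?_ ?_
    · intro i j k hki hkj
      rw [dist_eq_norm]
      apply Real.le_sqrt_of_sq_le
      exact key k _ (hCanti hki (huC i)) _ (hCanti hkj (huC j)) _ (hub k i hki) (hub k j hkj)
    · have : Tendsto (fun k : ℕ => 4 * ((D + 1 / ((k : ℝ) + 1)) ^ 2 - d k ^ 2)) atTop
          (𝓝 (4 * ((D + 0) ^ 2 - D ^ 2))) :=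
        (((tendsto_const_nhds.add hone).pow 2).sub (hD.pow 2)).const_mul 4
      have h2 := this.sqrt
      simpa using h2
  obtain ⟨c, hc⟩ := cauchySeq_tendsto_of_complete hcauchy
  have hcC : ∀ k, c ∈ C k := fun k =>
    (hCclosed k).mem_of_tendsto hc (eventually_atTop.2 ⟨k, fun i hi => hCanti hi (huC i)⟩)
  have hcD : ‖c‖ ≤ D := by
    have h1 : Tendsto (fun k => ‖u k‖) atTop (𝓝 ‖c‖) := hc.norm
    have h2 : Tendsto (fun k : ℕ => D + 1 / ((k : ℝ) + 1)) atTop (𝓝 (D + 0)) :=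
      tendsto_const_nhds.add hone
    have h3 := le_of_tendsto_of_tendsto' h1 h2 (fun k => hub k k le_rfl)
    simpa using h3
  refine ⟨c, ?_, ?_⟩
  · rintro rfl
    obtain ⟨k, -, hk⟩ := hB.toHasBasis.mem_iff.1 hW
    have hsub : C k ⊆ {x : H | η ≤ (⟪ξ, x⟫_ℂ).re} := by
      apply closure_minimal
      · apply convexHull_min
        · rintro _ ⟨g, hg, rfl⟩
          exact h g (hk hg)
        · intro x hx y hy a b ha hb hab
          simp only [Set.mem_ofPred_eq] at hx hy ⊢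
          rw [inner_add_right]
          have e1 : ⟪ξ, a • x⟫_ℂ = a * ⟪ξ, x⟫_ℂ := by
            rw [← Complex.coe_smul, inner_smul_right]
          have e2 : ⟪ξ, b • y⟫_ℂ = b * ⟪ξ, y⟫_ℂ := by
            rw [← Complex.coe_smul, inner_smul_right]
          rw [e1, e2]
          simp only [Complex.add_re, Complex.mul_re, Complex.ofReal_re, Complex.ofReal_im,
            zero_mul, sub_zero]
          nlinarith
      · exact isClosed_le continuous_const
          (Complex.continuous_re.comp (continuous_const.inner continuous_id))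
    have := hsub (hcC k)
    simp at this
    linarith
  · rw [Metric.tendsto_nhds]
    intro ε hε
    have hlim : Tendsto (fun k => 4 * (D ^ 2 - d k ^ 2)) atTop (𝓝 (4 * (D ^ 2 - D ^ 2))) :=
      ((tendsto_const_nhds).sub (hD.pow 2)).const_mul 4
    rw [sub_self, mul_zero] at hlim
    obtain ⟨k, hk⟩ := (hlim.eventually (gt_mem_nhds (show (0 : ℝ) < ε ^ 2 by positivity))).exists
    have hmul : Tendsto (fun p : G × G => p.1 * p.2) (𝓝 (1, 1)) (𝓝 1) := by
      have := (continuous_mul (M := G)).tendsto (1, 1)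
      simpa using this
    have hpre : (fun p : G × G => p.1 * p.2) ⁻¹' (B k) ∈ 𝓝 ((1 : G), (1 : G)) :=
      hmul (hB.toHasBasis.mem_of_mem trivial)
    rw [nhds_prod_eq] at hpre
    obtain ⟨V, hV, hVV⟩ := Filter.mem_prod_same_iff.1 hpre
    obtain ⟨j, -, hj⟩ := hB.toHasBasis.mem_iff.1 hV
    filter_upwards [hB.toHasBasis.mem_of_mem (i := j) trivial] with g hg
    have hsub : C j ⊆ (fun x => π g x) ⁻¹' (C k) := by
      apply closure_minimal
      · apply convexHull_min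
        · rintro _ ⟨g', hg', rfl⟩
          apply subset_closure
          apply subset_convexHull
          refine ⟨g * g', hVV (Set.mk_mem_prod (hj hg) (hj hg')), ?_⟩
          simp
        · exact (hCconv k).linear_preimage ((π g).toLinearEquiv.toLinearMap.restrictScalars ℝ)
      · exact (hCclosed k).preimage (π g).continuous
    have h1 : π g c ∈ C k := hsub (hcC j)
    have h2 := key k _ h1 _ (hcC k) D (by rw [LinearIsometryEquiv.norm_map]; exact hcD) hcD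
    rw [dist_eq_norm]
    have h3 : ‖π g c - c‖ ^ 2 < ε ^ 2 := lt_of_le_of_lt h2 hk
    exact lt_of_pow_lt_pow_left₀ 2 hε.le h3

/-- the closed invariant subspace of the vectors with continuous orbit map -/
theorem all_continuous (π : G →* (H ≃ₗᵢ[ℂ] H))
    (hirr : ∀ K : Submodule ℂ H, IsClosed (K : Set H) → (∀ g, ∀ v ∈ K, π g v ∈ K) →
      K = ⊥ ∨ K = ⊤)
    (c : H) (hc0 : c ≠ 0) (hc : Tendsto (fun g => π g c) (𝓝 1) (𝓝 c)) :
    ∀ v : H, Continuous fun g => π g v := by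
  let K : Submodule ℂ H :=
    { carrier := {v | Tendsto (fun g => π g v) (𝓝 1) (𝓝 v)}
      add_mem' := by
        intro a b ha hb
        simp only [Set.mem_ofPred_eq, map_add] at ha hb ⊢
        exact ha.add hb
      zero_mem' := by simp
      smul_mem' := by
        intro z a ha
        simp only [Set.mem_ofPred_eq, map_smul] at ha ⊢
        exact ha.const_smul z }
  have hKmem : ∀ v, v ∈ K ↔ Tendsto (fun g => π g v) (𝓝 1) (𝓝 v) := fun v => Iff.rfl
  have hKclosed : IsClosed (K : Set H) := by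
    rw [← closure_subset_iff_isClosed]
    intro v hv
    show Tendsto (fun g => π g v) (𝓝 1) (𝓝 v)
    rw [Metric.tendsto_nhds]
    intro ε hε
    obtain ⟨w, hw, hvw⟩ := Metric.mem_closure_iff.1 hv (ε / 3) (by positivity)
    have hw' : Tendsto (fun g => π g w) (𝓝 1) (𝓝 w) := hw
    rw [Metric.tendsto_nhds] at hw'
    filter_upwards [hw' (ε / 3) (by positivity)] with g hg
    have h1 : dist (π g v) (π g w) = dist v w := (π g).dist_map v w
    calc dist (π g v) v ≤ dist (π g v) (π g w) + dist (π g w) w + dist w v :=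
          dist_triangle4 _ _ _ _
      _ < ε / 3 + ε / 3 + ε / 3 := by
          rw [h1, dist_comm w v]; linarith
      _ = ε := by ring
  have hKinv : ∀ g, ∀ v ∈ K, π g v ∈ K := by
    intro h v hv
    show Tendsto (fun g => π g (π h v)) (𝓝 1) (𝓝 (π h v))
    have hv' : Tendsto (fun g => π g v) (𝓝 1) (𝓝 v) := hv
    have h1 : Tendsto (fun g : G => h⁻¹ * g * h) (𝓝 1) (𝓝 1) := by
      have : Continuous fun g : G => h⁻¹ * g * h := by fun_prop
      have h2 := this.tendsto 1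
      simpa using h2
    have h2 : Tendsto (fun g => π h (π (h⁻¹ * g * h) v)) (𝓝 1) (𝓝 (π h v)) :=
      ((π h).continuous.tendsto v).comp (hv'.comp h1)
    refine h2.congr (fun g => ?_)
    have e : π h * π (h⁻¹ * g * h) = π g * π h := by
      rw [← map_mul, ← map_mul]; congr 1; group
    exact congrArg (fun f : H ≃ₗᵢ[ℂ] H => f v) e
  rcases hirr K hKclosed hKinv with hK | hK
  · exact absurd ((Submodule.mem_bot ℂ).1 (hK ▸ (hKmem c).2 hc)) hc0
  · intro v
    have hv : Tendsto (fun g => π g v) (𝓝 1) (𝓝 v) := by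
      have : v ∈ K := hK ▸ Submodule.mem_top
      exact this
    rw [continuous_iff_continuousAt]
    intro g₀
    have h1 : Tendsto (fun g : G => g₀⁻¹ * g) (𝓝 g₀) (𝓝 1) := by
      have : Continuous fun g : G => g₀⁻¹ * g := by fun_prop
      have h2 := this.tendsto g₀
      simpa using h2
    have h2 : Tendsto (fun g => π g₀ (π (g₀⁻¹ * g) v)) (𝓝 g₀) (𝓝 (π g₀ v)) :=
      ((π g₀).continuous.tendsto v).comp (hv.comp h1)
    refine h2.congr (fun g => ?_)
    have e : π g₀ * π (g₀⁻¹ * g) = π g := by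
      rw [← map_mul]; congr 1; group
    exact congrArg (fun f : H ≃ₗᵢ[ℂ] H => f v) e

end general


section geometry

open Matrix

/-- `SO(n)` as a group of matrices -/
abbrev SO (n : ℕ) := Matrix.specialOrthogonalGroup (Fin n) ℝ

variable {m : ℕ}

theorem SO_inv (g : SO (m + 3)) : (g⁻¹).1 = (g.1)ᵀ := by
  ext i j; rfl

/-- the image of `e_1` -/
def col (g : SO (m + 3)) : Fin (m + 3) → ℝ := fun i => g.1 i 0

theorem inv_mul_zero (g h : SO (m + 3)) : (g⁻¹ * h).1 0 0 = col g ⬝ᵥ col h := by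
  have : (g⁻¹ * h).1 = (g.1)ᵀ * h.1 := by rw [← SO_inv]; rfl
  rw [this, Matrix.mul_apply]
  rfl

theorem col_mul (g h : SO (m + 3)) : col (g * h) = g.1 *ᵥ col h := by
  ext i
  show (g.1 * h.1) i 0 = _
  rw [Matrix.mul_apply]
  rfl

theorem col_one : col (1 : SO (m + 3)) = Pi.single 0 1 := by
  ext i
  show (1 : Matrix (Fin (m + 3)) (Fin (m + 3)) ℝ) i 0 = _
  rw [Matrix.one_apply, Pi.single_apply]

theorem mulVec_e (g : SO (m + 3)) : g.1 *ᵥ Pi.single 0 1 = col g := by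
  rw [← col_one, ← col_mul, mul_one]

theorem col_self (g : SO (m + 3)) : col g ⬝ᵥ col g = 1 := by
  rw [← inv_mul_zero, inv_mul_cancel]
  show (1 : Matrix (Fin (m + 3)) (Fin (m + 3)) ℝ) 0 0 = 1
  simp

/-- the reflection in the hyperplane orthogonal to `v` -/
noncomputable def hh (v : Fin (m + 3) → ℝ) : Matrix (Fin (m + 3)) (Fin (m + 3)) ℝ :=
  1 - (2 / (v ⬝ᵥ v)) • Matrix.vecMulVec v v

theorem hh_mulVec (v x : Fin (m + 3) → ℝ) :
    hh v *ᵥ x = x - (2 / (v ⬝ᵥ v) * (v ⬝ᵥ x)) • v := by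
  rw [hh, Matrix.sub_mulVec, Matrix.one_mulVec, Matrix.smul_mulVec]
  congr 1
  ext i
  simp only [Pi.smul_apply, Matrix.mulVec, Matrix.vecMulVec_apply, dotProduct, smul_eq_mul,
    Finset.mul_sum, Finset.sum_mul]
  apply Finset.sum_congr rfl
  intro j _
  ring

theorem hh_transpose (v : Fin (m + 3) → ℝ) : (hh v)ᵀ = hh v := by
  ext i j
  simp only [hh, Matrix.transpose_apply, Matrix.sub_apply, Matrix.smul_apply,
    Matrix.vecMulVec_apply, smul_eq_mul, Matrix.one_apply]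
  rw [mul_comm (v j) (v i)]
  simp only [eq_comm]

theorem hh_mul_self (v : Fin (m + 3) → ℝ) (hv : v ⬝ᵥ v ≠ 0) : hh v * hh v = 1 := by
  apply Matrix.ext_of_mulVec_single
  intro i
  rw [← Matrix.mulVec_mulVec, hh_mulVec, hh_mulVec, Matrix.one_mulVec]
  generalize (Pi.single i (1 : ℝ) : Fin (m + 3) → ℝ) = x
  rw [dotProduct_sub, dotProduct_smul, sub_sub, ← add_smul, smul_eq_mul]
  have : 2 / (v ⬝ᵥ v) * (v ⬝ᵥ x) + 2 / (v ⬝ᵥ v) * (v ⬝ᵥ x - 2 / (v ⬝ᵥ v) * (v ⬝ᵥ x) * (v ⬝ᵥ v)) = 0 := by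
    field_simp
    ring
  rw [this, zero_smul, sub_zero]

theorem hh_det (v : Fin (m + 3) → ℝ) (hv : v ⬝ᵥ v ≠ 0) : (hh v).det = -1 := by
  have h1 : hh v = 1 + Matrix.replicateCol Unit ((-(2 / (v ⬝ᵥ v))) • v) * Matrix.replicateRow Unit v := by
    ext i j
    simp only [hh, Matrix.sub_apply, Matrix.add_apply, Matrix.smul_apply, Matrix.vecMulVec_apply,
      smul_eq_mul, Matrix.mul_apply, Matrix.replicateCol_apply, Matrix.replicateRow_apply,
      Pi.smul_apply, Finset.univ_unique, Finset.sum_const, Finset.card_singleton, one_smul]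
    ring
  rw [h1, Matrix.det_one_add_replicateCol_mul_replicateRow, dotProduct_smul, smul_eq_mul]
  field_simp
  ring

theorem dot_self_ne {v : Fin (m + 3) → ℝ} (hv : v ≠ 0) : v ⬝ᵥ v ≠ 0 := by
  intro h
  exact hv (dotProduct_self_eq_zero.1 h)

theorem exists_orth (p y : Fin (m + 3) → ℝ) : ∃ z : Fin (m + 3) → ℝ, z ≠ 0 ∧ z ⬝ᵥ y = 0 ∧ z ⬝ᵥ p = 0 := by
  let f : (Fin (m + 3) → ℝ) →ₗ[ℝ] (Fin 2 → ℝ) :=
    { toFun := fun z => ![z ⬝ᵥ y, z ⬝ᵥ p]
      map_add' := by
        intro a b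
        ext i
        fin_cases i <;> simp [add_dotProduct]
      map_smul' := by
        intro c a
        ext i
        fin_cases i <;> simp [smul_dotProduct] }
  have hker : LinearMap.ker f ≠ ⊥ := by
    apply LinearMap.ker_ne_bot_of_finrank_lt
    simp
  obtain ⟨z, hz, hz0⟩ := (Submodule.ne_bot_iff _).1 hker
  have hz' : f z = 0 := hz
  refine ⟨z, hz0, ?_, ?_⟩
  · have := congrFun hz' 0
    simpa [f] using this
  · have := congrFun hz' 1
    simpa [f] using this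

theorem exists_rotation (p x y : Fin (m + 3) → ℝ) (hxy : x ⬝ᵥ x = y ⬝ᵥ y)
    (hp : x ⬝ᵥ p = y ⬝ᵥ p) : ∃ g : SO (m + 3), g.1 *ᵥ x = y ∧ g.1 *ᵥ p = p := by
  by_cases hne : x = y
  · refine ⟨1, ?_, ?_⟩
    · show (1 : Matrix (Fin (m + 3)) (Fin (m + 3)) ℝ) *ᵥ x = y
      rw [Matrix.one_mulVec, hne]
    · show (1 : Matrix (Fin (m + 3)) (Fin (m + 3)) ℝ) *ᵥ p = p
      rw [Matrix.one_mulVec]
  · obtain ⟨z, hz0, hzy, hzp⟩ := exists_orth p y
    have hv : x - y ≠ 0 := sub_ne_zero.2 hne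
    have hv' := dot_self_ne hv
    have hz' := dot_self_ne hz0
    have hA : (hh z * hh (x - y)) * (hh z * hh (x - y))ᵀ = 1 := by
      rw [Matrix.transpose_mul, hh_transpose, hh_transpose]
      calc hh z * hh (x - y) * (hh (x - y) * hh z)
          = hh z * (hh (x - y) * hh (x - y)) * hh z := by simp only [Matrix.mul_assoc]
        _ = 1 := by rw [hh_mul_self _ hv', Matrix.mul_one, hh_mul_self _ hz']
    have hdet : (hh z * hh (x - y)).det = 1 := by
      rw [Matrix.det_mul, hh_det _ hv', hh_det _ hz']; norm_num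
    have hmem : hh z * hh (x - y) ∈ Matrix.specialOrthogonalGroup (Fin (m + 3)) ℝ := by
      rw [Matrix.mem_specialOrthogonalGroup_iff, Matrix.mem_orthogonalGroup_iff]
      exact ⟨hA, hdet⟩
    have h1 : hh (x - y) *ᵥ x = y := by
      rw [hh_mulVec]
      have e1 : (x - y) ⬝ᵥ (x - y) = 2 * ((x - y) ⬝ᵥ x) := by
        simp only [sub_dotProduct, dotProduct_sub]
        rw [← hxy, dotProduct_comm y x]; ring
      have e2 : 2 / ((x - y) ⬝ᵥ (x - y)) * ((x - y) ⬝ᵥ x) = 1 := by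
        have e3 : (x - y) ⬝ᵥ x ≠ 0 := by
          intro h0; rw [h0, mul_zero] at e1; exact hv' e1
        rw [e1]; field_simp
      rw [e2, one_smul]; abel
    have h2 : hh (x - y) *ᵥ p = p := by
      rw [hh_mulVec]
      have : (x - y) ⬝ᵥ p = 0 := by rw [sub_dotProduct, hp, sub_self]
      rw [this]; simp
    have h3 : hh z *ᵥ y = y := by rw [hh_mulVec, hzy]; simp
    have h4 : hh z *ᵥ p = p := by rw [hh_mulVec, hzp]; simp
    refine ⟨⟨_, hmem⟩, ?_, ?_⟩
    · show (hh z * hh (x - y)) *ᵥ x = y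
      rw [← Matrix.mulVec_mulVec, h1, h3]
    · show (hh z * hh (x - y)) *ᵥ p = p
      rw [← Matrix.mulVec_mulVec, h2, h4]

theorem exists_col (y : Fin (m + 3) → ℝ) (hy : y ⬝ᵥ y = 1) : ∃ g : SO (m + 3), col g = y := by
  obtain ⟨g, hg, -⟩ := exists_rotation 0 (Pi.single 0 1) y (by rw [hy]; simp) (by simp)
  exact ⟨g, by rw [← mulVec_e, hg]⟩

end geometry


section main

open Matrix

variable {m : ℕ} {H : Type*} [NormedAddCommGroup H] [InnerProductSpace ℂ H]

theorem state_eq (π : SO (m + 3) →* (H ≃ₗᵢ[ℂ] H)) (ξ : H)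
    (hfix : ∀ k : SO (m + 3), k.1 *ᵥ Pi.single 0 1 = Pi.single 0 1 → π k ξ = ξ)
    (a b : SO (m + 3)) (hab : a.1 0 0 = b.1 0 0) : ⟪ξ, π a ξ⟫_ℂ = ⟪ξ, π b ξ⟫_ℂ := by
  obtain ⟨k, hk1, hk2⟩ := exists_rotation (Pi.single 0 1) (col a) (col b)
    (by rw [col_self, col_self]) (by simpa [col] using hab)
  have hk' : ((k * a)⁻¹ * b).1 *ᵥ Pi.single 0 1 = Pi.single 0 1 := by
    rw [mulVec_e, col_mul, ← hk1, ← col_mul, ← col_mul, inv_mul_cancel, col_one]
  have e1 := hfix _ hk'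
  have e2 := hfix _ hk2
  have e3 : π b = π k * π a * π ((k * a)⁻¹ * b) := by
    rw [← map_mul, ← map_mul]; congr 1; group
  have e4 : π b ξ = π k (π a ξ) := by
    rw [e3]
    show π k (π a (π ((k * a)⁻¹ * b) ξ)) = _
    rw [e1]
  calc ⟪ξ, π a ξ⟫_ℂ = ⟪π k ξ, π k (π a ξ)⟫_ℂ := (LinearIsometryEquiv.inner_map_map _ _ _).symm
    _ = ⟪ξ, π b ξ⟫_ℂ := by rw [e2, e4]

/-- Two clusters of unit vectors: `y_i`, `i ∈ P`, and `y_j`, `j ∉ P`, with inner product `u` for different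
indices in the same cluster and `t` for indices in different clusters. -/
theorem exists_clusters (P : Finset (Fin (m + 3))) (hP : 0 < P.card) (hQ : 0 < (Pᶜ).card) (t u : ℝ)
    (htu : |t| ≤ u) (hu0 : 0 < u) (hu : u < 1) :
    ∃ y : Fin (m + 3) → Fin (m + 3) → ℝ, (∀ i, y i ⬝ᵥ y i = 1) ∧
      (∀ i ∈ P, ∀ j ∈ P, i ≠ j → y i ⬝ᵥ y j = u) ∧
      (∀ i ∉ P, ∀ j ∉ P, i ≠ j → y i ⬝ᵥ y j = u) ∧
      ∀ i ∉ P, ∀ j ∈ P, y i ⬝ᵥ y j = t := by
  classical
  set p : ℝ := (P.card : ℝ) with hp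
  set q : ℝ := ((Pᶜ).card : ℝ) with hq
  have hp1 : 1 ≤ p := by
    rw [hp]; exact_mod_cast hP
  have hq1 : 1 ≤ q := by
    rw [hq]; exact_mod_cast hQ
  set s : ℝ := Real.sqrt (1 - u) with hs
  have hs2 : s ^ 2 = 1 - u := Real.sq_sqrt (by linarith)
  have hs0 : 0 ≤ s := Real.sqrt_nonneg _
  -- parameters of the second cluster
  set ρ : ℝ := Real.sqrt (s ^ 2 + q * u) with hρ
  have hρ2 : ρ ^ 2 = s ^ 2 + q * u := Real.sq_sqrt (by nlinarith)
  have hρpos : 0 < ρ := Real.sqrt_pos.2 (by nlinarith)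
  set D : ℝ := (ρ - s) / q with hD
  have hD1 : q * D = ρ - s := by rw [hD]; field_simp
  have hDeq : 2 * s * D + q * D ^ 2 = u := by
    have : q * (2 * s * D + q * D ^ 2) = q * u := by
      calc q * (2 * s * D + q * D ^ 2) = 2 * s * (q * D) + (q * D) ^ 2 := by ring
        _ = ρ ^ 2 - s ^ 2 := by rw [hD1]; ring
        _ = q * u := by rw [hρ2]; ring
    exact mul_left_cancel₀ (by linarith : q ≠ 0) this
  set B : ℝ := t / ρ with hB
  have hBρ : B * ρ = t := by rw [hB]; field_simp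
  have ht2 : t ^ 2 ≤ u ^ 2 := sq_le_sq' (by linarith [neg_abs_le t]) ((le_abs_self t).trans htu)
  have hqB : q * B ^ 2 ≤ u := by
    have h1 : B ^ 2 * ρ ^ 2 = t ^ 2 := by rw [← hBρ]; ring
    have h2 : q * B ^ 2 * ρ ^ 2 ≤ u * ρ ^ 2 := by
      have : q * B ^ 2 * ρ ^ 2 = q * t ^ 2 := by rw [← h1]; ring
      rw [this, hρ2]
      nlinarith
    exact le_of_mul_le_mul_right h2 (by positivity)
  set σ : ℝ := Real.sqrt (s ^ 2 + p * (u - q * B ^ 2)) with hσ
  have hσ2 : σ ^ 2 = s ^ 2 + p * (u - q * B ^ 2) := Real.sq_sqrt (by nlinarith)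
  set A : ℝ := (σ - s) / p with hA
  have hA1 : p * A = σ - s := by rw [hA]; field_simp
  have hAeq : 2 * s * A + p * A ^ 2 + q * B ^ 2 = u := by
    have : p * (2 * s * A + p * A ^ 2 + q * B ^ 2) = p * u := by
      calc p * (2 * s * A + p * A ^ 2 + q * B ^ 2)
          = 2 * s * (p * A) + (p * A) ^ 2 + p * (q * B ^ 2) := by ring
        _ = σ ^ 2 - s ^ 2 + p * (q * B ^ 2) := by rw [hA1]; ring
        _ = p * u := by rw [hσ2]; ring
    exact mul_left_cancel₀ (by linarith : p ≠ 0) this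
  -- the vectors
  let w : Fin (m + 3) → ℝ := fun l => if l ∈ P then A else B
  let z : Fin (m + 3) → ℝ := fun l => if l ∈ P then 0 else D
  have hww : w ⬝ᵥ w = p * A ^ 2 + q * B ^ 2 := by
    simp only [dotProduct, w]
    rw [← Finset.sum_add_sum_compl P]
    rw [Finset.sum_congr rfl (g := fun _ => A ^ 2) (fun l hl => by simp [hl, sq]),
      Finset.sum_congr rfl (s₁ := Pᶜ) (g := fun _ => B ^ 2) (fun l hl => by
        simp [Finset.mem_compl.1 hl, sq])]
    simp [hp, hq]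
  have hzz : z ⬝ᵥ z = q * D ^ 2 := by
    simp only [dotProduct, z]
    rw [← Finset.sum_add_sum_compl P]
    rw [Finset.sum_congr rfl (g := fun _ => (0 : ℝ)) (fun l hl => by simp [hl]),
      Finset.sum_congr rfl (s₁ := Pᶜ) (g := fun _ => D ^ 2) (fun l hl => by
        simp [Finset.mem_compl.1 hl, sq])]
    simp [hq]
  have hzw : z ⬝ᵥ w = q * (D * B) := by
    simp only [dotProduct, z, w]
    rw [← Finset.sum_add_sum_compl P]
    rw [Finset.sum_congr rfl (g := fun _ => (0 : ℝ)) (fun l hl => by simp [hl]),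
      Finset.sum_congr rfl (s₁ := Pᶜ) (g := fun _ => D * B) (fun l hl => by
        simp [Finset.mem_compl.1 hl])]
    simp [hq]
  have hwP : ∀ i ∈ P, w i = A := fun i hi => by simp [w, hi]
  have hwQ : ∀ i ∉ P, w i = B := fun i hi => by simp [w, hi]
  have hzP : ∀ i ∈ P, z i = 0 := fun i hi => by simp [z, hi]
  have hzQ : ∀ i ∉ P, z i = D := fun i hi => by simp [z, hi]
  have expand : ∀ (a b : Fin (m + 3) → ℝ) (i j : Fin (m + 3)),
      (s • (Pi.single i 1 : Fin (m + 3) → ℝ) + a) ⬝ᵥ (s • (Pi.single j 1 : Fin (m + 3) → ℝ) + b)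
        = s ^ 2 * (if i = j then 1 else 0) + s * b i + s * a j + a ⬝ᵥ b := by
    intro a b i j
    simp only [add_dotProduct, dotProduct_add, smul_dotProduct, dotProduct_smul, smul_eq_mul,
      single_one_dotProduct, dotProduct_single_one, Pi.add_apply, Pi.smul_apply, Pi.single_apply]
    by_cases hij : i = j
    · subst hij
      rw [if_pos rfl]; ring
    · rw [if_neg hij, if_neg (fun h => hij h.symm)]; ring
  refine ⟨fun i => if i ∈ P then s • (Pi.single i 1 : Fin (m + 3) → ℝ) + w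
    else s • (Pi.single i 1 : Fin (m + 3) → ℝ) + z, ?_, ?_, ?_, ?_⟩
  · intro i
    by_cases hi : i ∈ P
    · simp only [hi, if_true]
      rw [expand, hww, hwP i hi, if_pos rfl]; linarith
    · simp only [hi, if_false]
      rw [expand, hzz, hzQ i hi, if_pos rfl]; linarith
  · intro i hi j hj hij
    simp only [hi, hj, if_true]
    rw [expand, hww, hwP i hi, hwP j hj, if_neg hij]; linarith
  · intro i hi j hj hij
    simp only [hi, hj, if_false]
    rw [expand, hzz, hzQ i hi, hzQ j hj, if_neg hij]; linarith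
  · intro i hi j hj
    simp only [hi, hj, if_true, if_false]
    have hij : i ≠ j := by rintro rfl; exact hi hj
    rw [expand, hzw, hzP j hj, hwQ i hi, if_neg hij]
    have : s * B + q * (D * B) = B * ρ := by
      have : q * (D * B) = (q * D) * B := by ring
      rw [this, hD1]; ring
    linarith

/-- the values of the state near the identity -/
theorem key_bound (π : SO (m + 3) →* (H ≃ₗᵢ[ℂ] H)) (ξ : H) (hξ : ‖ξ‖ = 1)
    (hfix : ∀ k : SO (m + 3), k.1 *ᵥ Pi.single 0 1 = Pi.single 0 1 → π k ξ = ξ)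
    (P : Finset (Fin (m + 3))) (hP : 0 < P.card) (hQ : 0 < (Pᶜ).card)
    (γ g : SO (m + 3)) (h1 : |γ.1 0 0| ≤ g.1 0 0) (h0 : 0 < g.1 0 0) (h2 : g.1 0 0 < 1) :
    ((P.card : ℝ) * ((Pᶜ).card : ℝ)) * ‖⟪ξ, π γ ξ⟫_ℂ‖ ^ 2 ≤
      (1 + ((P.card : ℝ) - 1) * (⟪ξ, π g ξ⟫_ℂ).re) *
        (1 + (((Pᶜ).card : ℝ) - 1) * (⟪ξ, π g ξ⟫_ℂ).re) ∧
    0 ≤ 1 + ((P.card : ℝ) - 1) * (⟪ξ, π g ξ⟫_ℂ).re ∧
    0 ≤ 1 + (((Pᶜ).card : ℝ) - 1) * (⟪ξ, π g ξ⟫_ℂ).re := by
  classical
  obtain ⟨y, hy, hyP, hyQ, hyPQ⟩ := exists_clusters P hP hQ (γ.1 0 0) (g.1 0 0) h1 h0 h2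
  choose k hk using fun i => exists_col (y i) (hy i)
  set c : ℂ := ⟪ξ, π γ ξ⟫_ℂ with hc
  set φ : ℂ := ⟪ξ, π g ξ⟫_ℂ with hφ
  have hmove : ∀ a b : SO (m + 3), ⟪π a ξ, π b ξ⟫_ℂ = ⟪ξ, π (a⁻¹ * b) ξ⟫_ℂ := by
    intro a b
    have e : π b = π a * π (a⁻¹ * b) := by rw [← map_mul]; congr 1; group
    have e' : π b ξ = π a (π (a⁻¹ * b) ξ) := by
      conv_lhs => rw [e]
      rfl
    rw [e', LinearIsometryEquiv.inner_map_map]
  have hA : ∀ i ∉ P, ∀ j ∈ P, ⟪π (k i) ξ, π (k j) ξ⟫_ℂ = c := by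
    intro i hi j hj
    rw [hmove]
    apply state_eq π ξ hfix
    rw [inv_mul_zero, hk, hk, hyPQ i hi j hj]
  have hBi : ∀ i, ⟪π (k i) ξ, π (k i) ξ⟫_ℂ = 1 := by
    intro i
    rw [inner_self_eq_norm_sq_to_K, LinearIsometryEquiv.norm_map, hξ]; simp
  have hnorm : ∀ R : Finset (Fin (m + 3)),
      (∀ i ∈ R, ∀ j ∈ R, i ≠ j → ⟪π (k i) ξ, π (k j) ξ⟫_ℂ = φ) →
      ‖∑ i ∈ R, π (k i) ξ‖ ^ 2 = (R.card : ℝ) * (1 + ((R.card : ℝ) - 1) * φ.re) := by
    intro R hR
    have hSS : ⟪∑ i ∈ R, π (k i) ξ, ∑ i ∈ R, π (k i) ξ⟫_ℂ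
        = (R.card : ℂ) * (1 + ((R.card : ℂ) - 1) * φ) := by
      rw [inner_sum]
      have : ∀ j ∈ R, ⟪∑ i ∈ R, π (k i) ξ, π (k j) ξ⟫_ℂ = 1 + ((R.card : ℂ) - 1) * φ := by
        intro j hj
        rw [sum_inner, ← Finset.add_sum_erase _ _ hj, hBi]
        rw [Finset.sum_congr rfl (fun i hi => hR i (Finset.mem_of_mem_erase hi) j hj
          (Finset.ne_of_mem_erase hi))]
        rw [Finset.sum_const, Finset.card_erase_of_mem hj, nsmul_eq_mul,
          Nat.cast_sub (Finset.card_pos.2 ⟨j, hj⟩)]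
        simp
      rw [Finset.sum_congr rfl this, Finset.sum_const, nsmul_eq_mul]
    have e1 : (⟪∑ i ∈ R, π (k i) ξ, ∑ i ∈ R, π (k i) ξ⟫_ℂ).re = ‖∑ i ∈ R, π (k i) ξ‖ ^ 2 := by
      rw [inner_self_eq_norm_sq_to_K]; norm_cast
    rw [← e1, hSS]
    simp
  have hNP := hnorm P (by
    intro i hi j hj hij
    rw [hmove]
    apply state_eq π ξ hfix
    rw [inv_mul_zero, hk, hk, hyP i hi j hj hij])
  have hNQ := hnorm Pᶜ (by
    intro i hi j hj hij
    rw [hmove]
    apply state_eq π ξ hfix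
    rw [inv_mul_zero, hk, hk,
      hyQ i (Finset.mem_compl.1 hi) j (Finset.mem_compl.1 hj) hij])
  have hcross : ⟪∑ i ∈ Pᶜ, π (k i) ξ, ∑ i ∈ P, π (k i) ξ⟫_ℂ
      = ((Pᶜ).card : ℂ) * ((P.card : ℂ) * c) := by
    rw [sum_inner]
    have : ∀ i ∈ Pᶜ, ⟪π (k i) ξ, ∑ j ∈ P, π (k j) ξ⟫_ℂ = (P.card : ℂ) * c := by
      intro i hi
      rw [inner_sum, Finset.sum_congr rfl (fun j hj => hA i (Finset.mem_compl.1 hi) j hj),
        Finset.sum_const, nsmul_eq_mul]
    rw [Finset.sum_congr rfl this, Finset.sum_const, nsmul_eq_mul]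
  have hcs : ‖⟪∑ i ∈ Pᶜ, π (k i) ξ, ∑ i ∈ P, π (k i) ξ⟫_ℂ‖ ≤
      ‖∑ i ∈ Pᶜ, π (k i) ξ‖ * ‖∑ i ∈ P, π (k i) ξ‖ := norm_inner_le_norm _ _
  rw [hcross, norm_mul, norm_mul, Complex.norm_natCast, Complex.norm_natCast] at hcs
  have hPpos : (0 : ℝ) < (P.card : ℝ) := by exact_mod_cast hP
  have hQpos : (0 : ℝ) < ((Pᶜ).card : ℝ) := by exact_mod_cast hQ
  have hF1 : 0 ≤ 1 + ((P.card : ℝ) - 1) * φ.re := by
    by_contra hneg
    push Not at hneg
    have := sq_nonneg ‖∑ i ∈ P, π (k i) ξ‖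
    rw [hNP] at this
    nlinarith
  have hF2 : 0 ≤ 1 + (((Pᶜ).card : ℝ) - 1) * φ.re := by
    by_contra hneg
    push Not at hneg
    have := sq_nonneg ‖∑ i ∈ Pᶜ, π (k i) ξ‖
    rw [hNQ] at this
    nlinarith
  refine ⟨?_, hF1, hF2⟩
  have hsq : (((Pᶜ).card : ℝ) * ((P.card : ℝ) * ‖c‖)) ^ 2 ≤
      (((Pᶜ).card : ℝ) * (1 + (((Pᶜ).card : ℝ) - 1) * φ.re)) *
        ((P.card : ℝ) * (1 + ((P.card : ℝ) - 1) * φ.re)) := by
    rw [← hNP, ← hNQ, ← mul_pow]
    gcongr
  have hpq : 0 < (P.card : ℝ) * ((Pᶜ).card : ℝ) := by positivity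
  refine le_of_mul_le_mul_left (a := (P.card : ℝ) * ((Pᶜ).card : ℝ)) ?_ hpq
  calc (P.card : ℝ) * ((Pᶜ).card : ℝ) * (((P.card : ℝ) * ((Pᶜ).card : ℝ)) * ‖c‖ ^ 2)
      = (((Pᶜ).card : ℝ) * ((P.card : ℝ) * ‖c‖)) ^ 2 := by ring
    _ ≤ _ := hsq
    _ = _ := by ring

/-- **Result.** Let `n = m + 3 ≥ 3` and let `π` be an irreducible unitary representation of the abstract
group `SO(n)` (no continuity is assumed) with a unit vector `ξ` fixed by the stabiliser `SO(n - 1)` of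
`e_1`. Then `π` is continuous, or the state `φ(γ) = ⟨ξ, π(γ) ξ⟩` satisfies `p q |φ(γ)|² ≤ 1` for all `γ` with
`γ_11 ≠ 1, -1` and all `p + q = n`. -/
theorem result (m : ℕ) {H : Type*} [NormedAddCommGroup H] [InnerProductSpace ℂ H] [CompleteSpace H]
    (π : Matrix.specialOrthogonalGroup (Fin (m + 3)) ℝ →* (H ≃ₗᵢ[ℂ] H))
    (hirr : ∀ K : Submodule ℂ H, IsClosed (K : Set H) → (∀ g, ∀ v ∈ K, π g v ∈ K) →
      K = ⊥ ∨ K = ⊤)
    (ξ : H) (hξ : ‖ξ‖ = 1)
    (hfix : ∀ k : Matrix.specialOrthogonalGroup (Fin (m + 3)) ℝ,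
      k.1 *ᵥ Pi.single 0 1 = Pi.single 0 1 → π k ξ = ξ) :
    (∀ v : H, Continuous fun g => π g v) ∨
    ∀ γ : Matrix.specialOrthogonalGroup (Fin (m + 3)) ℝ, γ.1 0 0 ≠ 1 → γ.1 0 0 ≠ -1 →
      ∀ p q : ℕ, p + q = m + 3 → (p : ℝ) * (q : ℝ) * ‖⟪ξ, π γ ξ⟫_ℂ‖ ^ 2 ≤ 1 := by
  classical
  by_contra hcon
  push Not at hcon
  obtain ⟨⟨v, hv⟩, γ, h1, h2, p, q, hpq, hbig⟩ := hcon
  apply hv
  have hcolsq : ∀ g : SO (m + 3), (g.1 0 0) ^ 2 ≤ 1 := by
    intro g
    have h3 := col_self g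
    rw [← h3]
    show _ ≤ ∑ i, g.1 i 0 * g.1 i 0
    rw [sq]
    exact Finset.single_le_sum (f := fun i => g.1 i 0 * g.1 i 0)
      (fun i _ => mul_self_nonneg _) (Finset.mem_univ 0)
  have hle : |γ.1 0 0| ≤ 1 := abs_le_one_iff_mul_self_le_one.2 (by nlinarith [hcolsq γ])
  have hlt : |γ.1 0 0| < 1 := by
    rcases abs_le.1 hle with ⟨h5, h6⟩
    rw [abs_lt]
    exact ⟨lt_of_le_of_ne h5 (Ne.symm h2), lt_of_le_of_ne h6 h1⟩
  -- the two clusters
  obtain ⟨P, -, hPcard⟩ := Finset.exists_subset_card_eq (s := (Finset.univ : Finset (Fin (m + 3))))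
    (n := p) (by simp; omega)
  have hQcard : (Pᶜ).card = q := by
    rw [Finset.card_compl, hPcard, Fintype.card_fin]; omega
  have hp0 : 0 < p := by
    rcases Nat.eq_zero_or_pos p with h | h
    · exfalso; rw [h] at hbig; norm_num at hbig
    · exact h
  have hq0 : 0 < q := by
    rcases Nat.eq_zero_or_pos q with h | h
    · exfalso; rw [h] at hbig; norm_num at hbig
    · exact h
  set K : ℝ := (p : ℝ) * (q : ℝ) * ‖⟪ξ, π γ ξ⟫_ℂ‖ ^ 2 with hK
  have hp1 : (1 : ℝ) ≤ p := by exact_mod_cast hp0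
  have hq1 : (1 : ℝ) ≤ q := by exact_mod_cast hq0
  set M : ℝ := 2 * ((p : ℝ) + q + p * q) with hM
  have hMpos : 0 < M := by positivity
  set η : ℝ := min ((K - 1) / M) 1 with hη
  have hηpos : 0 < η := lt_min (div_pos (by linarith) hMpos) one_pos
  have hη1 : η ≤ 1 := min_le_right _ _
  have hηK : η * M ≤ K - 1 := by
    have : η ≤ (K - 1) / M := min_le_left _ _
    rwa [le_div_iff₀ hMpos] at this
  have hM' : FirstCountableTopology (Matrix (Fin (m + 3)) (Fin (m + 3)) ℝ) :=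
    inferInstanceAs (FirstCountableTopology (Fin (m + 3) → Fin (m + 3) → ℝ))
  have hSO : FirstCountableTopology (SO (m + 3)) :=
    Topology.IsInducing.subtypeVal.firstCountableTopology
  have hcontentry : Continuous fun g : SO (m + 3) => g.1 0 0 :=
    (continuous_apply_apply (0 : Fin (m + 3)) (0 : Fin (m + 3))).comp continuous_subtype_val
  obtain ⟨c, hc0, hc⟩ := exists_continuous_vector π ξ η hηpos
    {g | |γ.1 0 0| < g.1 0 0} (by
      apply IsOpen.mem_nhds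
      · exact isOpen_lt continuous_const hcontentry
      · show |γ.1 0 0| < (1 : Matrix (Fin (m + 3)) (Fin (m + 3)) ℝ) 0 0
        simpa using hlt) (by
      intro g hg
      have hg' : |γ.1 0 0| < g.1 0 0 := hg
      have hgpos : 0 < g.1 0 0 := lt_of_le_of_lt (abs_nonneg _) hg'
      have hg1 : g.1 0 0 ≤ 1 := by nlinarith [hcolsq g]
      rcases lt_or_eq_of_le hg1 with hglt | heq
      · obtain ⟨hkey, hF1, hF2⟩ := key_bound π ξ hξ hfix P (by rw [hPcard]; exact hp0)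
          (by rw [hQcard]; exact hq0) γ g hg'.le hgpos hglt
        rw [hPcard, hQcard] at hkey
        rw [hPcard] at hF1
        rw [hQcard] at hF2
        set r : ℝ := (⟪ξ, π g ξ⟫_ℂ).re with hr
        by_contra hlt'
        push Not at hlt'
        have hA : 1 + ((p : ℝ) - 1) * r ≤ 1 + p * η := by nlinarith
        have hB : 1 + ((q : ℝ) - 1) * r ≤ 1 + q * η := by nlinarith
        have hAB : (1 + ((p : ℝ) - 1) * r) * (1 + ((q : ℝ) - 1) * r) ≤ (1 + p * η) * (1 + q * η) := by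
          gcongr
        have hfin : (1 + (p : ℝ) * η) * (1 + q * η) ≤ 1 + η * (p + q + p * q) := by
          have : (p : ℝ) * q * (η * η) ≤ p * q * η := by
            have h7 : η * η ≤ η := by nlinarith
            have h8 : (0 : ℝ) ≤ p * q := by positivity
            nlinarith
          nlinarith
        have : η * M = 2 * (η * (p + q + p * q)) := by rw [hM]; ring
        have hpos2 : 0 < η * ((p : ℝ) + q + p * q) := by positivity
        linarith
      · have e1 : ⟪ξ, π g ξ⟫_ℂ = ⟪ξ, π (1 : SO (m + 3)) ξ⟫_ℂ := by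
          apply state_eq π ξ hfix
          rw [heq]
          show (1 : ℝ) = (1 : Matrix (Fin (m + 3)) (Fin (m + 3)) ℝ) 0 0
          simp
        rw [e1, map_one]
        show η ≤ (⟪ξ, ξ⟫_ℂ).re
        rw [inner_self_eq_norm_sq_to_K, hξ]
        simp only [Complex.coe_algebraMap, Complex.ofReal_one, one_pow, Complex.one_re]
        exact hη1)
  exact all_continuous π hirr c hc0 hc v

end main

end Pool.Agent.Results.MP_91ad52_an.BoundOffThePoles
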